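import Mathlib
import Pool.Agent.Helper70.HA.C2
import Pool.Agent.Helper70.HA.C3
import Pool.Agent.Helper70.HA.R2
import Pool.Agent.Helper70.HA.N6

namespace Pool.Agent.Results.MP_1dc56d_ag.ArbitraryPosition

open Pool.Agent.Helper70.HA

/-- Let `k` be a field of characteristic zero and let `l_e` (`e ∈ E`) be pairwise non-proportional
linear forms in `n + 1` variables over `k`, in ARBITRARY position (no restriction on the way in
which the hyperplanes meet). Let `F` be the function field of the cyclic cover
`y ^ d = ∏ l_e(1, x) ^ (m_e)` of `ℙ^n`, totally ramified over the hyperplanes `l_e = 0` (the `m_e`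
are prime to `d`, and `d ∣ ∑ m_e`), and suppose that `(1 - 1 / d) |E| ≤ rank E` (that is, `K ≤ 0`),
all `m_e` being `1` when equality holds. Then the following are equivalent: `F` is rational; `F` is
unirational; it is NOT the case that `(1 - 1 / d) |E| = rank E`, that `(1 - 1 / d) |S| ≤ rank S`
for all `S ⊆ E` and that `rank S + rank (E \ S) = rank E` whenever equality holds for `S`. -/
theorem result {k F : Type*} [Field k] [CharZero k] [Field F] [Algebra k F] {n d : ℕ}
    (hd : 2 ≤ d) {E : Type*} [Fintype E] [DecidableEq E] [Nonempty E] (l : E → Fin (n + 1) → k)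
    (hl : ∀ e e', e ≠ e' → LinearIndependent k ![l e, l e'])
    (m : E → ℕ) (hm : ∀ e, (m e).Coprime d) (hsum : d ∣ ∑ e, m e)
    (hK : (d - 1) * Fintype.card E ≤ d * rk l Finset.univ)
    (hK0 : (d - 1) * Fintype.card E = d * rk l Finset.univ → ∀ e, m e = 1)
    (x : Fin n → F) (hx : AlgebraicIndependent k x) (y : F)
    (hy : y ^ d = ∏ e, (algebraMap k F (l e 0) +
      ∑ i : Fin n, algebraMap k F (l e i.succ) * x i) ^ m e)
    (hadj : IntermediateField.adjoin k (Set.range x ∪ {y}) = ⊤) :
    List.TFAE [
      ∃ m : ℕ, Nonempty (F ≃ₐ[k] FractionRing (MvPolynomial (Fin m) k)),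
      ∃ m : ℕ, Nonempty (F →ₐ[k] FractionRing (MvPolynomial (Fin m) k)),
      ¬ SplitLC d (rk l) Finset.univ] := by
  -- there are at least two forms
  have hl0 : ∀ e, l e ≠ 0 := by
    intro e
    have hex : ∃ e', e ≠ e' := by
      by_contra hall
      push Not at hall
      have h1 : ∑ e', m e' = m e := by
        rw [Finset.sum_eq_single e (fun b _ hb => absurd (hall b).symm hb)
          (fun h => absurd (Finset.mem_univ e) h)]
      rw [h1] at hsum
      have h2 : d ∣ Nat.gcd (m e) d := Nat.dvd_gcd hsum dvd_rfl
      rw [hm e] at h2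
      have := Nat.le_of_dvd one_pos h2
      omega
    obtain ⟨e', he'⟩ := hex
    exact (hl e e' he').ne_zero 0
  have hr := isRk_rk l hl0
  tfae_have 1 → 2 := by
    rintro ⟨m, ⟨e⟩⟩
    exact ⟨m, ⟨e.toAlgHom⟩⟩
  tfae_have 2 → 3 := by
    rintro ⟨m', ⟨φ⟩⟩ hsp
    have hm1 : ∀ e, m e = 1 := by
      apply hK0
      have := hsp.1
      rwa [Finset.card_univ] at this
    refine not_unirational_of_split (L := FractionRing (MvPolynomial (Fin m') k)) (m := m') hd l hl
      hl0 hsp (fun i => φ (x i)) (hx.map' φ.injective) (φ y) ?_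
    rw [← map_pow, hy, map_prod]
    apply Finset.prod_congr rfl
    intro e _
    simp only [hm1, pow_one, map_add, map_sum, map_mul, AlgHom.commutes]
  tfae_have 3 → 1 := by
    intro h
    have h1 : SplitLC d (rk l) Finset.univ ∨ Good d m (rk l) Finset.univ := by
      apply dichotomy hr hd m _ Finset.univ_nonempty _ hsum
      · intro heq e _
        rw [Finset.card_univ] at heq
        exact hK0 heq e
      · rw [Finset.card_univ]
        exact hK
    exact rational_of_good hd l hl0 m hm (h1.resolve_left h) x hx y hy hadj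
  tfae_finish

end Pool.Agent.Results.MP_1dc56d_ag.ArbitraryPosition
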