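import Mathlib
import Pool.Agent.Helper97.QW.Final

/-!
Unirationality and rationality of varieties of quadratic width at most `s`: the preimages
`X = Q⁻¹(Z)` of arbitrary closed subschemes `Z` of affine `s`-space under `s` arbitrary
polynomials `Q_1, …, Q_s` of degree at most two in any number `n` of unknowns.
-/

namespace Pool.Agent.Results.MP_1dc56d_ag.QuadraticWidth

open MvPolynomial
open Pool.Agent.Helper97.QW

variable {k : Type*} [Field k] {n m s : ℕ}

/-- The ideal of `X = Q⁻¹(Z)`, where `J` is the ideal of `Z`: it is generated by the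
polynomials `P(Q_1, …, Q_s)` with `P ∈ J`. -/
noncomputable def PreIdeal (Q : Fin s → MvPolynomial (Fin n) k)
    (J : Ideal (MvPolynomial (Fin s) k)) : Ideal (MvPolynomial (Fin n) k) :=
  J.map (aeval Q : MvPolynomial (Fin s) k →ₐ[k] MvPolynomial (Fin n) k)

/-- For a prime `I` with `X = V(I)`: the function field `k(X)` embeds over `k` in some
`k(t_1, …, t_m)`, that is, `X` is unirational. -/
def Unirat (I : Ideal (MvPolynomial (Fin n) k)) : Prop :=
  ∃ m : ℕ, Nonempty (FractionRing (MvPolynomial (Fin n) k ⧸ I) →ₐ[k]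
    FractionRing (MvPolynomial (Fin m) k))

/-- For primes `I`, `I'` with `X = V(I)`, `Y = V(I')`: the function fields of `X` and of
`Y × 𝔸^e` are isomorphic over `k`. -/
def BiratProd (I : Ideal (MvPolynomial (Fin n) k)) (I' : Ideal (MvPolynomial (Fin m) k))
    (e : ℕ) : Prop :=
  Nonempty (FractionRing (MvPolynomial (Fin n) k ⧸ I) ≃ₐ[k]
    FractionRing (MvPolynomial (Fin e) (MvPolynomial (Fin m) k ⧸ I')))

theorem result [IsAlgClosed k] (hn : s * s + s - 1 ≤ n) (J : Ideal (MvPolynomial (Fin s) k))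
    (Q : Fin s → MvPolynomial (Fin n) k) (hQ : ∀ j, (Q j).totalDegree ≤ 2)
    (hp : (PreIdeal Q J).IsPrime) :
    (J.IsPrime ∧ BiratProd (PreIdeal Q J) J (n - s) ∧ (Unirat (PreIdeal Q J) ↔ Unirat J)) ∨
    ∃ φ : MvPolynomial (Fin n) k →ₐ[k] MvPolynomial (Fin (s * s + s - 1)) k,
      Function.Surjective φ ∧ (∀ v, (φ (X v)).totalDegree ≤ 1) ∧
      (PreIdeal (fun j => φ (Q j)) J).IsPrime ∧
      BiratProd (PreIdeal Q J) (PreIdeal (fun j => φ (Q j)) J) (n - (s * s + s - 1)) ∧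
      (Unirat (PreIdeal Q J) ↔ Unirat (PreIdeal (fun j => φ (Q j)) J)) := by
  rcases main J n hn Q hQ hp with ⟨hJ, ⟨e⟩⟩ | ⟨φ, hφs, hφd, hφp, ⟨e⟩⟩
  · left
    exact ⟨hJ, ⟨e⟩, (Unirational.congr e).trans (Unirational.mvPoly _)⟩
  · right
    exact ⟨φ, hφs, hφd, hφp, ⟨e⟩, (Unirational.congr e).trans (Unirational.mvPoly _)⟩

end Pool.Agent.Results.MP_1dc56d_ag.QuadraticWidth
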